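import Mathlib
import Pool.Agent.Helper998.DualRep

set_option autoImplicit false

/-! The oriented incidence vectors of the edges of a graph: linear independence does not depend on
the field. -/

namespace Pool.Agent.R27.GraphRep

open Set

variable {V E : Type*} [Fintype V] [DecidableEq V]

/-- incidence vector of the arc from `a e` to `b e` -/
def inc (K : Type*) [Field K] (a b : E → V) (e : E) : V → K :=
  Pi.single (a e) 1 - Pi.single (b e) 1

/-- connected by edges of `J` -/
def Cn (a b : E → V) (J : Set E) : V → V → Prop :=
  Relation.EqvGen (fun u v => ∃ i ∈ J, a i = u ∧ b i = v)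

lemma mem_span_iff (K : Type*) [Field K] (a b : E → V) (J : Set E) (u v : V) :
    (Pi.single u 1 - Pi.single v 1 : V → K) ∈ Submodule.span K (inc K a b '' J) ↔
      Cn a b J u v := by
  classical
  constructor
  · intro h
    by_contra hc
    let f : (V → K) →ₗ[K] K :=
      ∑ w ∈ Finset.univ.filter (fun w => Cn a b J u w), LinearMap.proj w
    have hf : ∀ y : V → K, f y = ∑ w ∈ Finset.univ.filter (fun w => Cn a b J u w), y w := by
      intro y
      simp [f]
    have hs : ∀ w : V, f (Pi.single w 1) = if Cn a b J u w then 1 else 0 := by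
      intro w
      rw [hf]
      simp only [Pi.single_apply]
      rw [Finset.sum_ite_eq']
      simp
    have h1 : Submodule.span K (inc K a b '' J) ≤ LinearMap.ker f := by
      rw [Submodule.span_le]
      rintro _ ⟨i, hi, rfl⟩
      simp only [SetLike.mem_coe, LinearMap.mem_ker, inc, map_sub, hs]
      have h2 : Cn a b J u (a i) ↔ Cn a b J u (b i) := by
        constructor
        · intro h'
          exact Relation.EqvGen.trans _ _ _ h' (Relation.EqvGen.rel _ _ ⟨i, hi, rfl, rfl⟩)
        · intro h'
          exact Relation.EqvGen.trans _ _ _ h'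
            (Relation.EqvGen.symm _ _ (Relation.EqvGen.rel _ _ ⟨i, hi, rfl, rfl⟩))
      by_cases h3 : Cn a b J u (a i)
      · rw [if_pos h3, if_pos (h2.1 h3), sub_self]
      · rw [if_neg h3, if_neg (fun h4 => h3 (h2.2 h4)), sub_self]
    have h5 := h1 h
    have h6 : Cn a b J u u := Relation.EqvGen.refl _
    rw [LinearMap.mem_ker, map_sub, hs, hs, if_pos h6, if_neg hc, sub_zero] at h5
    exact one_ne_zero h5
  · intro h
    induction h with
    | rel u v h =>
      obtain ⟨i, hi, rfl, rfl⟩ := h
      exact Submodule.subset_span ⟨i, hi, rfl⟩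
    | refl u => rw [sub_self]; exact Submodule.zero_mem _
    | symm u v _ ih =>
      rw [← neg_sub]
      exact Submodule.neg_mem _ ih
    | trans u v w _ _ ih1 ih2 =>
      have := Submodule.add_mem _ ih1 ih2
      rwa [sub_add_sub_cancel] at this

lemma indep_iff (K : Type*) [Field K] (a b : E → V) (I : Set E) :
    LinearIndepOn K (inc K a b) I ↔ ∀ e ∈ I, ¬ Cn a b (I \ {e}) (a e) (b e) := by
  rw [linearIndepOn_iff_notMem_span]
  refine forall₂_congr fun e _ => not_congr ?_
  rw [← mem_span_iff K]
  rfl

lemma indep_field (K L : Type*) [Field K] [Field L] (a b : E → V) (I : Set E) :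
    LinearIndepOn K (inc K a b) I ↔ LinearIndepOn L (inc L a b) I := by
  rw [indep_iff, indep_iff]

end Pool.Agent.R27.GraphRep
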